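import Pool.Agent.H5.LL.Spec

/-!
# Module II : the truth theorem (section 4), in the language of trees.
-/

namespace Pool.Agent.H46.LL

open Pool.Agent.H5.LL HTree

/-! ### Contents from integers -/

open Classical in
/-- A content from three integers (junk if the bounds fail). -/
noncomputable def mkCont (d e δ : ℤ) : Cont :=
  if h : 0 ≤ d ∧ d ≤ 32 ∧ 0 ≤ δ ∧ δ ≤ 32 ∧ -32 ≤ e ∧ e ≤ 32 ∧ -32 ≤ δ + 2 * e ∧ δ + 2 * e ≤ 64 then
    ⟨d, e, δ, h.1, h.2.1, h.2.2.1, h.2.2.2.1, h.2.2.2.2.1, h.2.2.2.2.2.1, h.2.2.2.2.2.2.1,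
      h.2.2.2.2.2.2.2⟩
  else ⟨0, 0, 0, by norm_num, by norm_num, by norm_num, by norm_num, by norm_num, by norm_num,
    by norm_num, by norm_num⟩

lemma mkCont_spec {d e δ : ℤ}
    (h : 0 ≤ d ∧ d ≤ 32 ∧ 0 ≤ δ ∧ δ ≤ 32 ∧ -32 ≤ e ∧ e ≤ 32 ∧ -32 ≤ δ + 2 * e ∧
      δ + 2 * e ≤ 64) :
    (mkCont d e δ).d = d ∧ (mkCont d e δ).e = e ∧ (mkCont d e δ).δ = δ := by
  unfold mkCont
  rw [dif_pos h]
  exact ⟨rfl, rfl, rfl⟩

lemma mkCont_self (c : Cont) : mkCont c.d c.e c.δ = c := by
  unfold mkCont
  rw [dif_pos ⟨c.hd0, c.hd1, c.hδ0, c.hδ1, c.he0, c.he1, c.hs0, c.hs1⟩]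

variable {T : Type} [HTree T]

/-- The contents defined by a height function. -/
def dOf (U : T → T → ℤ) (V w : T) : ℤ := U (up V) (up w) - 2 * U (up (up V)) (up w)

def eOf (U : T → T → ℤ) (V w : T) : ℤ := U (up (up V)) w - U (up V) (up w)

noncomputable def dlOf (U dg : T → T → ℤ) (V w : T) : ℤ :=
  if 1 ≤ lev V + lev w then U (up V) w - 2 * U (up (up V)) w else dg V w

noncomputable def KOf (U dg : T → T → ℤ) (V w : T) : Cont :=
  mkCont (dOf U V w) (eOf U V w) (dlOf U dg V w)

structure UGood (U dg : T → T → ℤ) : Prop where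
  d0 : ∀ V w, 2 ≤ lev V + lev w → 0 ≤ U V w - 2 * U (up V) w
  d1 : ∀ V w, 2 ≤ lev V + lev w → U V w - 2 * U (up V) w ≤ 32
  p0 : ∀ V w, lev V + lev w = 1 → 1 ≤ U (up V) w - U V (up w)
  p1 : ∀ V w, lev V + lev w = 1 → U (up V) w - U V (up w) ≤ 3
  s : ∀ V V' w, lev V + lev w = 0 → up V = up V' → dg V w = dg V' w
  g0 : ∀ V w, lev V + lev w = 0 → 0 ≤ dg V w
  g1 : ∀ V w, lev V + lev w = 0 → dg V w ≤ 32

lemma lev_eq_of_up_eq {V V' : T} (h : up V = up V') : lev V = lev V' := by
  have h1 := lev_up V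
  have h2 := lev_up V'
  rw [h] at h1
  omega

section

variable {U dg : T → T → ℤ} (H : UGood U dg)
include H

lemma dOf_bounds (V w : T) (hs : 0 ≤ lev V + lev w) : 0 ≤ dOf U V w ∧ dOf U V w ≤ 32 := by
  have e1 := lev_up V
  have e2 := lev_up w
  exact ⟨H.d0 (up V) (up w) (by omega), H.d1 (up V) (up w) (by omega)⟩

lemma dlOf_bounds (V w : T) (hs : 0 ≤ lev V + lev w) :
    0 ≤ dlOf U dg V w ∧ dlOf U dg V w ≤ 32 := by
  have e1 := lev_up V
  unfold dlOf
  split_ifs with h1
  · exact ⟨H.d0 (up V) w (by omega), H.d1 (up V) w (by omega)⟩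
  · exact ⟨H.g0 V w (by omega), H.g1 V w (by omega)⟩

omit H in
lemma Of_hrel (V w : T) (hs : 0 ≤ lev V + lev w) :
    eOf U V w + dOf U V w = dlOf U dg (up V) w + 2 * eOf U (up V) w := by
  have e1 := lev_up V
  unfold eOf dOf dlOf
  rw [if_pos (by omega)]
  ring

omit H in
lemma Of_vrel (V w : T) (hs : 0 ≤ lev V + lev w) : dOf U V w = dlOf U dg V (up w) := by
  have e1 := lev_up w
  unfold dOf dlOf
  rw [if_pos (by omega)]

lemma eOf_pos (V w : T) (hs : lev V + lev w = 0) : 1 ≤ eOf U V w ∧ eOf U V w ≤ 3 := by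
  have e1 := lev_up V
  exact ⟨H.p0 (up V) w (by omega), H.p1 (up V) w (by omega)⟩

lemma eOf_bounds (n : ℕ) : ∀ V w : T, lev V + lev w = n → -32 ≤ eOf U V w ∧ eOf U V w ≤ 32 := by
  induction n with
  | zero =>
    intro V w hs
    have := eOf_pos H V w (by simpa using hs)
    omega
  | succ n ih =>
    intro V w hs
    push_cast at hs
    have e1 := lev_ch V 0
    have h0 := ih (ch V 0) w (by omega)
    have h1 := Of_hrel (U := U) (dg := dg) (ch V 0) w (by omega)
    rw [up_ch] at h1
    have h2 := dOf_bounds H (ch V 0) w (by omega)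
    have h3 := dlOf_bounds H V w (by omega)
    omega

lemma eOf_bounds' (V w : T) (hs : 0 ≤ lev V + lev w) : -32 ≤ eOf U V w ∧ eOf U V w ≤ 32 :=
  eOf_bounds H (lev V + lev w).toNat V w (by omega)

lemma dleOf_bounds (V w : T) (hs : 0 ≤ lev V + lev w) :
    -32 ≤ dlOf U dg V w + 2 * eOf U V w ∧ dlOf U dg V w + 2 * eOf U V w ≤ 64 := by
  rcases hs.lt_or_eq with h | h
  · have e1 := lev_ch V 0
    have h0 := eOf_bounds' H (ch V 0) w (by omega)
    have h1 := Of_hrel (U := U) (dg := dg) (ch V 0) w (by omega)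
    rw [up_ch] at h1
    have h2 := dOf_bounds H (ch V 0) w (by omega)
    omega
  · have h0 := eOf_pos H V w (by omega)
    have h3 := dlOf_bounds H V w (by omega)
    omega

lemma KOf_spec (V w : T) (hs : 0 ≤ lev V + lev w) :
    (KOf U dg V w).d = dOf U V w ∧ (KOf U dg V w).e = eOf U V w ∧
    (KOf U dg V w).δ = dlOf U dg V w := by
  apply mkCont_spec
  have h1 := dOf_bounds H V w hs
  have h2 := eOf_bounds' H V w hs
  have h3 := dlOf_bounds H V w hs
  have h4 := dleOf_bounds H V w hs
  exact ⟨h1.1, h1.2, h3.1, h3.2, h2.1, h2.2, h4.1, h4.2⟩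

theorem KOf_good : KGood RC posC (KOf U dg) where
  v2 V w hs := by
    have e1 := lev_up V
    show (KOf U dg V w).e + (KOf U dg V w).d = (KOf U dg (up V) w).δ + 2 * (KOf U dg (up V) w).e
    obtain ⟨a1, a2, a3⟩ := KOf_spec H V w hs
    obtain ⟨b1, b2, b3⟩ := KOf_spec H (up V) w (by omega)
    rw [a1, a2, b2, b3]
    exact Of_hrel (U := U) (dg := dg) V w hs
  v1 V w hs := by
    have e1 := lev_up w
    show (KOf U dg V w).d = (KOf U dg V (up w)).δ
    obtain ⟨a1, a2, a3⟩ := KOf_spec H V w hs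
    obtain ⟨b1, b2, b3⟩ := KOf_spec H V (up w) (by omega)
    rw [a1, b3]
    exact Of_vrel V w hs
  s2 V V' w hs hV := by
    show KOf U dg V w = KOf U dg V' w
    have e1 := lev_eq_of_up_eq hV
    have h1 : dOf U V w = dOf U V' w := by unfold dOf; rw [hV]
    have h2 : eOf U V w = eOf U V' w := by unfold eOf; rw [hV]
    have h3 : dlOf U dg V w = dlOf U dg V' w := by
      unfold dlOf
      rw [← e1, hV]
      split_ifs with h4
      · rfl
      · exact H.s V V' w (by omega) hV
    unfold KOf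
    rw [h1, h2, h3]
  s1 V w w' hs hw := by
    show (KOf U dg V w).d = (KOf U dg V w').d
    have e1 := lev_eq_of_up_eq hw
    rw [(KOf_spec H V w hs).1, (KOf_spec H V w' (by omega)).1]
    unfold dOf
    rw [hw]
  pos V w hs := by
    show 1 ≤ (KOf U dg V w).e ∧ (KOf U dg V w).e ≤ 3
    rw [(KOf_spec H V w (by omega)).2.1]
    exact eOf_pos H V w hs

end

/-! ### Arithmetic -/

/-- Floors of nearby numbers. -/
lemma floor_digit {A A' N : ℤ} (hN : 0 < N) (h1 : A - A' ≤ 2 * N) (h2 : A' - A ≤ 2 * N) :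
    -2 ≤ A / N - 2 * (A' / (2 * N)) ∧ A / N - 2 * (A' / (2 * N)) ≤ 3 := by
  have e1 := Int.emod_add_mul_ediv A' (2 * N)
  have e2 := Int.emod_nonneg A' (show 2 * N ≠ 0 by omega)
  have e3 := Int.emod_lt_of_pos A' (show 0 < 2 * N by omega)
  set q := A' / (2 * N) with hq
  have h3 : N * (2 * q - 2) ≤ A := by nlinarith
  have h4 : A < N * (2 * q + 4) := by nlinarith
  have h5 : 2 * q - 2 ≤ A / N := by
    rw [Int.le_ediv_iff_mul_le hN]
    linarith
  have h6 : A / N < 2 * q + 4 := by
    rw [Int.ediv_lt_iff_lt_mul hN]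
    linarith
  constructor <;> omega

lemma pow_scale {s : ℤ} (h : 2 ≤ s) :
    (2 : ℤ) ^ (s + 1 - 2).toNat = 2 * 2 ^ (s - 2).toNat := by
  have e1 : (s + 1 - 2).toNat = (s - 2).toNat + 1 := by omega
  rw [e1, pow_succ]
  ring

lemma two_pow_ge (n : ℕ) : (n : ℤ) + 1 ≤ 2 ^ n := by
  have h2 : n + 1 ≤ 2 ^ n := Nat.lt_two_pow_self
  exact_mod_cast h2

/-! ### Background -/

/-- The background height. -/
def Ub (V w : T) : ℤ := (-2 * lev w + 16) / 2 ^ (lev V + lev w - 2).toNat - 16

lemma Ub_digit (V w : T) (h : 2 ≤ lev V + lev w) :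
    14 ≤ Ub V w - 2 * Ub (up V) w ∧ Ub V w - 2 * Ub (up V) w ≤ 19 := by
  unfold Ub
  have e1 : lev (up V) + lev w - 2 = lev V + lev w + 1 - 2 := by rw [lev_up]; ring
  rw [e1, pow_scale h]
  have hp : (0 : ℤ) < 2 ^ (lev V + lev w - 2).toNat := by positivity
  have := floor_digit (A := -2 * lev w + 16) (A' := -2 * lev w + 16)
    (N := 2 ^ (lev V + lev w - 2).toNat) hp (by linarith) (by linarith)
  omega

lemma Ub_base (V w : T) (h : lev V + lev w = 2) : Ub V w = -2 * lev w := by
  unfold Ub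
  have e1 : (lev V + lev w - 2).toNat = 0 := by omega
  rw [e1]
  simp

lemma Ub_good : UGood (T := T) Ub (fun _ _ => 16) where
  d0 V w h := by have := Ub_digit V w h; omega
  d1 V w h := by have := Ub_digit V w h; omega
  p0 V w h := by
    have e1 := lev_up V
    have e2 := lev_up w
    rw [Ub_base (up V) w (by omega), Ub_base V (up w) (by omega)]
    omega
  p1 V w h := by
    have e1 := lev_up V
    have e2 := lev_up w
    rw [Ub_base (up V) w (by omega), Ub_base V (up w) (by omega)]
    omega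
  s _ _ _ _ _ := rfl
  g0 _ _ _ := by norm_num
  g1 _ _ _ := by norm_num

/-! ### Ancestors -/

lemma below_refl (V : T) : below V V := ⟨0, rfl⟩

lemma below_up_right {V A : T} (h : below V A) : below V (up A) := by
  obtain ⟨n, hn⟩ := h
  exact ⟨n + 1, by rw [Function.iterate_succ_apply', hn]⟩

lemma below_iter_right {V A : T} (h : below V A) (n : ℕ) : below V (up^[n] A) := by
  induction n with
  | zero => exact h
  | succ n ih =>
    rw [Function.iterate_succ_apply']
    exact below_up_right ih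

lemma below_iter_mono {V A : T} {n m : ℕ} (h : below V (up^[n] A)) (hnm : n ≤ m) :
    below V (up^[m] A) := by
  obtain ⟨k, rfl⟩ := Nat.exists_eq_add_of_le hnm
  rw [add_comm, Function.iterate_add_apply]
  exact below_iter_right h k

lemma below_of_up {V A : T} (h : below (up V) A) : below V A := by
  obtain ⟨n, hn⟩ := h
  exact ⟨n + 1, by rw [Function.iterate_succ_apply, hn]⟩

lemma below_up_up {V A : T} (h : below V A) : below (up V) (up A) := by
  obtain ⟨n, hn⟩ := h
  refine ⟨n, ?_⟩
  rw [← hn, ← Function.iterate_succ_apply, Function.iterate_succ_apply']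

lemma below_cases {V A : T} (h : below V A) : V = A ∨ below (up V) A := by
  obtain ⟨n, hn⟩ := h
  cases n with
  | zero => exact Or.inl hn
  | succ n => exact Or.inr ⟨n, by rw [← Function.iterate_succ_apply, hn]⟩

lemma lev_iter (n : ℕ) (V : T) : lev (up^[n] V) = lev V + n := by
  induction n with
  | zero => simp
  | succ n ih =>
    rw [Function.iterate_succ_apply', lev_up, ih]
    push_cast
    ring

lemma lev_le_of_below {V A : T} (h : below V A) : lev V ≤ lev A := by
  obtain ⟨n, hn⟩ := h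
  rw [← hn, lev_iter]
  omega

lemma eq_of_below {V A : T} (h : below V A) (hl : lev A ≤ lev V) : V = A := by
  rcases below_cases h with h1 | h1
  · exact h1
  · have := lev_le_of_below h1
    rw [lev_up] at this
    omega

lemma exists_anc (A V : T) : ∃ n, below V (up^[n] A) := by
  obtain ⟨n, n', h⟩ := conn V A
  exact ⟨n', n, h⟩

open Classical in
/-- number of steps from `A` up to the common ancestor of `A` and `V`. -/
noncomputable def anc (A V : T) : ℕ := Nat.find (exists_anc A V)

lemma anc_le_iff {A V : T} {n : ℕ} : anc A V ≤ n ↔ below V (up^[n] A) := by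
  classical
  constructor
  · intro h
    exact below_iter_mono (Nat.find_spec (exists_anc A V)) h
  · intro h
    exact Nat.find_min' (exists_anc A V) h

lemma anc_up (A V : T) : anc A V ≤ anc A (up V) ∧ anc A (up V) ≤ anc A V + 1 := by
  constructor
  · rw [anc_le_iff]
    exact below_of_up (anc_le_iff.mp le_rfl)
  · rw [anc_le_iff, Function.iterate_succ_apply']
    exact below_up_up (anc_le_iff.mp le_rfl)

lemma lev_sub_le_anc (A V : T) : lev V - lev A ≤ anc A V := by
  have := lev_le_of_below (anc_le_iff.mp (le_refl (anc A V)))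
  rw [lev_iter] at this
  omega

/-! ### Slack -/

/-- The slack: large near the island, `0` far away. -/
noncomputable def slack (C : ℤ) (A B V w : T) : ℤ :=
  max 0 (C + 3 - (max 2 (anc A V : ℤ) + max 1 (anc B w : ℤ)))

lemma slack_nonneg (C : ℤ) (A B V w : T) : 0 ≤ slack C A B V w := le_max_left _ _

lemma slack_step (C : ℤ) (A B V w : T) :
    slack C A B (up V) w ≤ slack C A B V (up w) + 1 ∧
    slack C A B V (up w) ≤ slack C A B (up V) w + 1 := by
  have h1 := anc_up A V
  have h2 := anc_up B w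
  unfold slack
  omega

lemma slack_island {C : ℤ} {A B V w : T} (H : inBox (up (up A)) (up B) V w) :
    C ≤ slack C A B V w := by
  have h1 : anc A V ≤ 2 := anc_le_iff.mpr H.1
  have h2 : anc B w ≤ 1 := anc_le_iff.mpr H.2
  unfold slack
  omega

lemma slack_outside {C : ℕ} {A B V w : T} (H : ¬ inBox (up^[C + 2] A) (up^[C + 1] B) V w) :
    slack C A B V w = 0 := by
  have h1 : ¬ (anc A V ≤ C + 2 ∧ anc B w ≤ C + 1) := by
    rw [anc_le_iff, anc_le_iff]
    exact H
  unfold slack
  rw [max_eq_left]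
  by_contra hcon
  push Not at hcon
  apply h1
  omega

lemma slack_le_of_scale {C : ℤ} {A B V w : T} (hs : lev V + lev w = 2) :
    slack C A B V w ≤ max 0 (lev A + lev w + C) := by
  have h1 := lev_sub_le_anc A V
  unfold slack
  omega

/-! ### Descending paths -/

/-- the leftmost descendant -/
def desc (n : ℕ) (V : T) : T := (fun v => ch v 0)^[n] V

lemma desc_zero (V : T) : desc 0 V = V := rfl

lemma desc_succ (n : ℕ) (V : T) : desc (n + 1) V = desc n (ch V 0) := rfl

lemma up_desc (n : ℕ) (V : T) : up (desc (n + 1) V) = desc n V := by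
  unfold desc
  rw [Function.iterate_succ_apply', up_ch]

lemma lev_desc (n : ℕ) (V : T) : lev (desc n V) = lev V - n := by
  induction n with
  | zero => simp [desc_zero]
  | succ n ih =>
    have h1 := lev_up (desc (n + 1) V)
    rw [up_desc, ih] at h1
    push_cast
    omega

lemma iter_desc (n : ℕ) (V : T) : up^[n] (desc n V) = V := by
  induction n with
  | zero => rfl
  | succ n ih => rw [Function.iterate_succ_apply, up_desc, ih]

lemma below_desc {V A : T} (h : below V A) (n : ℕ) : below (desc n V) A := by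
  obtain ⟨k, hk⟩ := h
  refine ⟨k + n, ?_⟩
  rw [Function.iterate_add_apply, iter_desc, hk]

/-- the descendant of `A`, `n` levels below, with the indices of the path above `V` -/
def graft (A : T) : ℕ → T → T
  | 0, _ => A
  | n + 1, V => ch (graft A n (up V)) (idx V)

lemma graft_succ (A : T) (n : ℕ) (V : T) : graft A (n + 1) V = ch (graft A n (up V)) (idx V) := rfl

lemma up_graft (A : T) (n : ℕ) (V : T) : up (graft A (n + 1) V) = graft A n (up V) := by
  rw [graft_succ, up_ch]

lemma iter_graft (A : T) (n : ℕ) (V : T) : up^[n] (graft A n V) = A := by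
  induction n generalizing V with
  | zero => rfl
  | succ n ih => rw [Function.iterate_succ_apply, up_graft, ih]

lemma lev_graft (A : T) (n : ℕ) (V : T) : lev (graft A n V) = lev A - n := by
  have h := lev_iter n (graft A n V)
  rw [iter_graft] at h
  omega

lemma graft_self {A : T} {n : ℕ} {V : T} (h : up^[n] V = A) : graft A n V = V := by
  induction n generalizing V with
  | zero => exact h.symm
  | succ n ih =>
    rw [graft_succ, ih (by rw [← Function.iterate_succ_apply, h]), ch_idx]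

/-! ### The island heights -/

section island

variable (Kx : T → T → Cont) (A2 : T) (T0 : ℤ)

/-- heights of the boxes `(A2, w)`, `w` lying `n` levels below the corner -/
def Utop : ℕ → T → ℤ
  | 0, _ => T0
  | n + 1, w => 2 * Utop n (up w) + (Kx (ch A2 0) w).δ + 2 * (Kx (ch A2 0) w).e

/-- heights of the boxes `(V, w)`, `V` lying `j` levels below `A2` -/
def Uisl : ℕ → ℕ → T → T → ℤ
  | 0, n, _, w => Utop Kx A2 T0 n w
  | j + 1, n, V, w => 2 * Uisl j n (up V) w + (Kx (ch V 0) w).δ

variable {Kx A2 T0}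

lemma Utop_succ (n : ℕ) (w : T) : Utop Kx A2 T0 (n + 1) w =
    2 * Utop Kx A2 T0 n (up w) + (Kx (ch A2 0) w).δ + 2 * (Kx (ch A2 0) w).e := rfl

lemma Uisl_zero (n : ℕ) (V w : T) : Uisl Kx A2 T0 0 n V w = Utop Kx A2 T0 n w := rfl

lemma Uisl_succ (j n : ℕ) (V w : T) : Uisl Kx A2 T0 (j + 1) n V w =
    2 * Uisl Kx A2 T0 j n (up V) w + (Kx (ch V 0) w).δ := rfl

lemma Uisl_E (HX : KGood RC posC Kx) (j n : ℕ) (V w : T) (hV : up^[j + 2] V = A2)
    (hs : 0 ≤ lev V + lev w) :
    Uisl Kx A2 T0 j (n + 1) (up (up V)) w - Uisl Kx A2 T0 (j + 1) n (up V) (up w) =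
      (Kx V w).e := by
  have sib : ∀ (V V' w : T), 0 ≤ lev V + lev w → up V = up V' → Kx V w = Kx V' w :=
    fun V V' w h1 h2 => HX.s2 V V' w h1 h2
  have hr : ∀ (V w : T), 0 ≤ lev V + lev w →
      (Kx V w).e + (Kx V w).d = (Kx (up V) w).δ + 2 * (Kx (up V) w).e :=
    fun V w h1 => HX.v2 V w h1
  have vr : ∀ (V w : T), 0 ≤ lev V + lev w → (Kx V w).d = (Kx V (up w)).δ :=
    fun V w h1 => HX.v1 V w h1
  induction j generalizing V with
  | zero =>
    have hV' : up (up V) = A2 := hV
    have e1 := lev_up V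
    have e2 := lev_up w
    rw [Uisl_zero, Utop_succ, Uisl_succ, Uisl_zero]
    have h1 := hr V w hs
    have h2 := vr V w hs
    have h3 := sib (up V) (ch A2 0) w (by omega) (by rw [hV', up_ch])
    have h4 := sib V (ch (up V) 0) (up w) (by omega) (by rw [up_ch])
    rw [← h3, ← h4]
    omega
  | succ j ih =>
    have e1 := lev_up V
    have e2 := lev_up w
    have ih' := ih (up V) (by rw [← Function.iterate_succ_apply, ← hV]) (by omega)
    rw [Uisl_succ, Uisl_succ (j + 1)]
    have h1 := hr V w hs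
    have h2 := vr V w hs
    have h3 := sib (up V) (ch (up (up V)) 0) w (by omega) (by rw [up_ch])
    have h4 := sib V (ch (up V) 0) (up w) (by omega) (by rw [up_ch])
    rw [← h3, ← h4]
    omega

lemma Uisl_bound (j n : ℕ) (V w : T) :
    Uisl Kx A2 T0 j n V w - 2 ^ (j + n) * T0 ≤ 64 * (2 ^ (j + n) - 1) ∧
    2 ^ (j + n) * T0 - Uisl Kx A2 T0 j n V w ≤ 64 * (2 ^ (j + n) - 1) := by
  induction j generalizing V with
  | zero =>
    induction n generalizing w with
    | zero => rw [Uisl_zero]; simp [Utop]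
    | succ n ih =>
      have ih' := ih (up w)
      rw [Uisl_zero] at ih' ⊢
      rw [Utop_succ]
      have h1 := (Kx (ch A2 0) w).hs0
      have h2 := (Kx (ch A2 0) w).hs1
      have e1 : (2 : ℤ) ^ (0 + (n + 1)) = 2 * 2 ^ (0 + n) := by
        rw [← add_assoc, pow_succ]; ring
      rw [e1]
      set P : ℤ := 2 ^ (0 + n) with hP
      have e2 : 2 * P * T0 = 2 * (P * T0) := by ring
      rw [e2]
      omega
  | succ j ih =>
    rw [Uisl_succ]
    have ih' := ih (up V)
    have h1 := (Kx (ch V 0) w).hδ0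
    have h2 := (Kx (ch V 0) w).hδ1
    have e1 : (2 : ℤ) ^ (j + 1 + n) = 2 * 2 ^ (j + n) := by
      rw [show j + 1 + n = (j + n) + 1 by omega, pow_succ]; ring
    rw [e1]
    set P : ℤ := 2 ^ (j + n) with hP
    have e2 : 2 * P * T0 = 2 * (P * T0) := by ring
    rw [e2]
    omega

lemma Uisl_tele (j n : ℕ) (V w : T) :
    0 ≤ Uisl Kx A2 T0 j n V w - 2 ^ j * Utop Kx A2 T0 n w ∧
    Uisl Kx A2 T0 j n V w - 2 ^ j * Utop Kx A2 T0 n w ≤ 32 * (2 ^ j - 1) := by
  induction j generalizing V with
  | zero => rw [Uisl_zero]; simp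
  | succ j ih =>
    rw [Uisl_succ]
    have ih' := ih (up V)
    have h1 := (Kx (ch V 0) w).hδ0
    have h2 := (Kx (ch V 0) w).hδ1
    have e1 : (2 : ℤ) ^ (j + 1) = 2 * 2 ^ j := by
      rw [pow_succ]; ring
    rw [e1]
    set P : ℤ := 2 ^ j with hP
    have e2 : 2 * P * Utop Kx A2 T0 n w = 2 * (P * Utop Kx A2 T0 n w) := by ring
    rw [e2]
    omega

end island

/-! ### The main construction -/

section main

/-- The width of the transition zone. -/
def Cst (s0 : ℕ) : ℕ := 65 * 2 ^ (s0 + 1) + 2 * (s0 + 2)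

variable (s0 : ℕ) (A B : T) (Kx : T → T → Cont)

/-- top value -/
def T0 : ℤ := (-2 * lev B) / 2 ^ (s0 + 1)

/-- The height of the box `(V, w)` in the island. -/
def VI (V w : T) : ℤ :=
  Uisl Kx (up (up A)) (T0 s0 B) (lev A + 2 - lev V).toNat (lev B + 1 - lev w).toNat V w

/-- overshoot above the island -/
def ovr (w : T) : ℕ := (-lev w - lev A).toNat

/-- overshoot below the island -/
def und (w : T) : ℕ := (lev w - lev B - 1).toNat

/-- The base heights of the island, extended. -/
def uFold (V w : T) : ℤ :=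
  Uisl Kx (up (up A)) (T0 s0 B)
    (lev A + 2 - lev V - und B w).toNat (lev B + 1 - lev w - ovr A w).toNat
    (graft (up (up A)) (lev A + 2 - lev V - und B w).toNat (up^[und B w] V))
    (graft (up B) (lev B + 1 - lev w - ovr A w).toNat (up^[ovr A w] w))
    + 2 * (ovr A w - und B w)

/-- The base heights (scale two). -/
noncomputable def uB (V w : T) : ℤ :=
  max (-2 * lev w - slack (Cst s0) A B V w)
    (min (-2 * lev w + slack (Cst s0) A B V w) (uFold s0 A B Kx V w))

open Classical in
/-- The numbers to be divided. -/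
noncomputable def aB (V w : T) : ℤ :=
  if inBox (up^[Cst s0 + 2] A) (up^[Cst s0 + 1] B) V w then
    uB s0 A B Kx (desc (lev V + lev w - 2).toNat V) w
  else -2 * lev w

/-- The standard heights. -/
noncomputable def Ustd (V w : T) : ℤ :=
  (aB s0 A B Kx V w + 16) / 2 ^ (lev V + lev w - 2).toNat - 16

open Classical in
/-- The heights. -/
noncomputable def UU (V w : T) : ℤ :=
  if inBox (up (up A)) (up B) V w then VI s0 A B Kx V w
  else if V = up (up (up A)) ∧ below w (up B) ∧ 0 ≤ lev A + lev w then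
    min (Ustd s0 A B Kx V w + 7) (VI s0 A B Kx (up (up A)) w / 2)
  else Ustd s0 A B Kx V w

open Classical in
/-- The digit at scale one. -/
noncomputable def dig (V w : T) : ℤ :=
  if inBox (up (up A)) (up B) (up V) w then (Kx V w).δ else 16

variable {s0 A B Kx}

lemma VI_step {V w : T} (h2 : lev V ≤ lev A + 1) :
    VI s0 A B Kx V w = 2 * VI s0 A B Kx (up V) w + (Kx (ch V 0) w).δ := by
  unfold VI
  have e1 : (lev A + 2 - lev V).toNat = (lev A + 2 - lev (up V)).toNat + 1 := by
    rw [lev_up]; omega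
  rw [e1, Uisl_succ]

lemma VI_E (HX : KGood RC posC Kx) {V w : T} (hV : below V A) (hw : below w B)
    (hs : 0 ≤ lev V + lev w) :
    VI s0 A B Kx (up (up V)) w - VI s0 A B Kx (up V) (up w) = (Kx V w).e := by
  obtain ⟨j, hj⟩ := hV
  obtain ⟨n, hn⟩ := hw
  have hj' := lev_iter j V
  have hn' := lev_iter n w
  rw [hj] at hj'
  rw [hn] at hn'
  unfold VI
  have e1 : (lev A + 2 - lev (up (up V))).toNat = j := by rw [lev_up, lev_up]; omega
  have e2 : (lev A + 2 - lev (up V)).toNat = j + 1 := by rw [lev_up]; omega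
  have e3 : (lev B + 1 - lev w).toNat = n + 1 := by omega
  have e4 : (lev B + 1 - lev (up w)).toNat = n := by rw [lev_up]; omega
  rw [e1, e2, e3, e4]
  apply Uisl_E HX j n V w _ hs
  rw [Function.iterate_succ_apply', Function.iterate_succ_apply', hj]

lemma VI_bound (hAB : lev A + lev B = s0) {V w : T} (hs : lev V + lev w = 2)
    (hV : lev V ≤ lev A + 2) (hw : lev w ≤ lev B + 1) :
    VI s0 A B Kx V w - (-2 * lev B) ≤ 65 * 2 ^ (s0 + 1) ∧
    (-2 * lev B) - VI s0 A B Kx V w ≤ 65 * 2 ^ (s0 + 1) := by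
  unfold VI
  have h := Uisl_bound (Kx := Kx) (A2 := up (up A)) (T0 := T0 s0 B) (lev A + 2 - lev V).toNat
    (lev B + 1 - lev w).toNat V w
  have e1 : (lev A + 2 - lev V).toNat + (lev B + 1 - lev w).toNat = s0 + 1 := by omega
  rw [e1] at h
  unfold T0 at h ⊢
  have e5 := Int.emod_add_mul_ediv (-2 * lev B) (2 ^ (s0 + 1))
  have e6 := Int.emod_nonneg (-2 * lev B) (show (2 : ℤ) ^ (s0 + 1) ≠ 0 by positivity)
  have e7 := Int.emod_lt_of_pos (-2 * lev B) (show 0 < (2 : ℤ) ^ (s0 + 1) by positivity)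
  set Y := Uisl Kx (up (up A)) (-2 * lev B / 2 ^ (s0 + 1)) (lev A + 2 - lev V).toNat
    (lev B + 1 - lev w).toNat V w
  set P : ℤ := 2 ^ (s0 + 1) with hP
  set R : ℤ := P * (-2 * lev B / P) with hR
  omega

lemma uFold_step (HX : KGood RC posC Kx) (hAB : lev A + lev B = s0) (V w : T)
    (hs : lev V + lev w = 1) :
    1 ≤ uFold s0 A B Kx (up V) w - uFold s0 A B Kx V (up w) ∧
    uFold s0 A B Kx (up V) w - uFold s0 A B Kx V (up w) ≤ 3 := by
  have f1 := lev_up V
  have f2 := lev_up w
  by_cases h1 : lev w ≤ lev B ∧ -lev A ≤ lev w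
  · -- the generic case
    unfold uFold
    have e1 : ovr A w = 0 := by unfold ovr; omega
    have e2 : ovr A (up w) = 0 := by unfold ovr; omega
    have e3 : und B w = 0 := by unfold und; omega
    have e4 : und B (up w) = 0 := by unfold und; omega
    rw [e1, e2, e3, e4]
    obtain ⟨j, hj⟩ : ∃ j : ℕ, (j : ℤ) = lev A + 2 - lev (up V) :=
      ⟨(lev A + 2 - lev (up V)).toNat, by omega⟩
    obtain ⟨n, hn⟩ : ∃ n : ℕ, (n : ℤ) = lev B + 1 - lev (up w) :=
      ⟨(lev B + 1 - lev (up w)).toNat, by omega⟩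
    have g1 : (lev A + 2 - lev (up V) - ((0 : ℕ) : ℤ)).toNat = j := by omega
    have g2 : (lev A + 2 - lev V - ((0 : ℕ) : ℤ)).toNat = j + 1 := by omega
    have g3 : (lev B + 1 - lev w - ((0 : ℕ) : ℤ)).toNat = n + 1 := by omega
    have g4 : (lev B + 1 - lev (up w) - ((0 : ℕ) : ℤ)).toNat = n := by omega
    rw [g1, g2, g3, g4]
    simp only [Function.iterate_zero, id_eq, Nat.cast_zero, sub_self, mul_zero, add_zero]
    rw [← up_graft (up (up A)) j V, ← up_graft (up B) n w]
    set V1 := graft (up (up A)) (j + 1) V with hV1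
    set w1 := graft (up B) (n + 1) w with hw1
    have k1 : lev V1 = lev V := by
      rw [hV1, lev_graft, lev_up, lev_up]
      push_cast
      omega
    have k2 : lev w1 = lev w := by
      rw [hw1, lev_graft, lev_up]
      push_cast
      omega
    have k3 := lev_ch V1 0
    have k4 : up^[j + 2] (ch V1 0) = up (up A) := by
      rw [Function.iterate_succ_apply, up_ch, hV1, iter_graft]
    have h2 := Uisl_E (T0 := T0 s0 B) HX j n (ch V1 0) w1 k4 (by omega)
    rw [up_ch] at h2
    rw [h2]
    exact HX.pos (ch V1 0) w1 (by omega)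
  · unfold uFold
    by_cases h2 : lev B < lev w
    · -- below the island
      have e1 : ovr A w = 0 := by unfold ovr; omega
      have e2 : ovr A (up w) = 0 := by unfold ovr; omega
      have e3 : und B (up w) = und B w + 1 := by unfold und; omega
      rw [e1, e2, e3]
      have g1 : (lev A + 2 - lev V - ((und B w + 1 : ℕ) : ℤ)).toNat =
          (lev A + 2 - lev (up V) - (und B w : ℤ)).toNat := by push_cast; omega
      have g3 : (lev B + 1 - lev w - ((0 : ℕ) : ℤ)).toNat = 0 := by omega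
      have g4 : (lev B + 1 - lev (up w) - ((0 : ℕ) : ℤ)).toNat = 0 := by omega
      rw [g1, g3, g4, Function.iterate_succ_apply]
      simp only [graft]
      push_cast
      omega
    · -- above the island
      have e3 : und B w = 0 := by unfold und; omega
      have e4 : und B (up w) = 0 := by unfold und; omega
      have e1 : ovr A w = ovr A (up w) + 1 := by unfold ovr; omega
      rw [e1, e3, e4]
      have g1 : (lev A + 2 - lev V - ((0 : ℕ) : ℤ)).toNat = 0 := by omega
      have g2 : (lev A + 2 - lev (up V) - ((0 : ℕ) : ℤ)).toNat = 0 := by omega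
      have g3 : (lev B + 1 - lev w - ((ovr A (up w) + 1 : ℕ) : ℤ)).toNat =
          (lev B + 1 - lev (up w) - (ovr A (up w) : ℤ)).toNat := by push_cast; omega
      rw [g1, g2, g3, Function.iterate_succ_apply]
      simp only [graft]
      push_cast
      omega

lemma uFold_island {V w : T} (hV : below V (up (up A))) (hw : below w (up B))
    (hs : lev V + lev w = 2) : uFold s0 A B Kx V w = VI s0 A B Kx V w := by
  have h1 := lev_le_of_below hV
  have h2 := lev_le_of_below hw
  rw [lev_up, lev_up] at h1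
  rw [lev_up] at h2
  have e1 : ovr A w = 0 := by unfold ovr; omega
  have e3 : und B w = 0 := by unfold und; omega
  obtain ⟨j, hj⟩ := hV
  obtain ⟨n, hn⟩ := hw
  have hj' := lev_iter j V
  have hn' := lev_iter n w
  rw [hj, lev_up, lev_up] at hj'
  rw [hn, lev_up] at hn'
  unfold uFold VI
  rw [e1, e3]
  have g1 : (lev A + 2 - lev V - ((0 : ℕ) : ℤ)).toNat = j := by omega
  have g2 : (lev A + 2 - lev V).toNat = j := by omega
  have g3 : (lev B + 1 - lev w - ((0 : ℕ) : ℤ)).toNat = n := by omega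
  have g4 : (lev B + 1 - lev w).toNat = n := by omega
  rw [g1, g2, g3, g4]
  simp only [Function.iterate_zero, id_eq, Nat.cast_zero, sub_self, mul_zero, add_zero]
  rw [graft_self hj, graft_self hn]

lemma uB_step (HX : KGood RC posC Kx) (hAB : lev A + lev B = s0) (V w : T)
    (hs : lev V + lev w = 1) :
    1 ≤ uB s0 A B Kx (up V) w - uB s0 A B Kx V (up w) ∧
    uB s0 A B Kx (up V) w - uB s0 A B Kx V (up w) ≤ 3 := by
  have h1 := uFold_step HX hAB V w hs
  have h2 := slack_step (Cst s0) A B V w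
  unfold uB
  rw [lev_up w]
  omega

lemma uB_island (hAB : lev A + lev B = s0) {V w : T}
    (H : inBox (up (up A)) (up B) V w) (hs : lev V + lev w = 2) :
    uB s0 A B Kx V w = VI s0 A B Kx V w := by
  have h1 := slack_island (C := (Cst s0 : ℤ)) H
  have h3 := lev_le_of_below H.1
  have h4 := lev_le_of_below H.2
  rw [lev_up, lev_up] at h3
  rw [lev_up] at h4
  have h2 := VI_bound (Kx := Kx) hAB hs (by omega) (by omega)
  unfold uB
  rw [uFold_island H.1 H.2 hs]
  unfold Cst at h1 ⊢
  push_cast at h1 ⊢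
  omega

lemma uB_outside {V w : T} (H : ¬ inBox (up^[Cst s0 + 2] A) (up^[Cst s0 + 1] B) V w) :
    uB s0 A B Kx V w = -2 * lev w := by
  unfold uB
  rw [slack_outside H]
  omega

lemma uB_clamp (V w : T) :
    uB s0 A B Kx V w - (-2 * lev w) ≤ slack (Cst s0) A B V w ∧
    (-2 * lev w) - uB s0 A B Kx V w ≤ slack (Cst s0) A B V w := by
  unfold uB
  have := slack_nonneg (Cst s0) A B V w
  omega

lemma uB_run (HX : KGood RC posC Kx) (hAB : lev A + lev B = s0) (n : ℕ) (V w : T)
    (hs : lev V + lev w = 2) :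
    n ≤ uB s0 A B Kx (up^[n] V) (desc n w) - uB s0 A B Kx V w ∧
    uB s0 A B Kx (up^[n] V) (desc n w) - uB s0 A B Kx V w ≤ 3 * n := by
  induction n with
  | zero => simp [desc_zero]
  | succ n ih =>
    have e1 := lev_iter n V
    have e2 := lev_desc (n + 1) w
    push_cast at e2
    have h1 := uB_step HX hAB (up^[n] V) (desc (n + 1) w) (by omega)
    rw [up_desc] at h1
    rw [Function.iterate_succ_apply']
    push_cast
    omega

/-- oscillation of the base heights -/
lemma uB_osc (HX : KGood RC posC Kx) (hAB : lev A + lev B = s0) (n : ℕ) {X Y w : T}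
    (hs : lev X + lev w = 2) (hs' : lev Y + lev w = 2) (hXY : up^[n] X = up^[n] Y) :
    uB s0 A B Kx X w - uB s0 A B Kx Y w ≤ 2 * n := by
  have h1 := uB_run HX hAB n X w hs
  have h2 := uB_run HX hAB n Y w hs'
  rw [hXY] at h1
  omega

lemma aB_step (HX : KGood RC posC Kx) (hAB : lev A + lev B = s0) {V w : T}
    (hk : 2 ≤ lev V + lev w) :
    aB s0 A B Kx V w - aB s0 A B Kx (up V) w ≤ 2 * 2 ^ (lev V + lev w - 2).toNat ∧
    aB s0 A B Kx (up V) w - aB s0 A B Kx V w ≤ 2 * 2 ^ (lev V + lev w - 2).toNat := by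
  have hp := two_pow_ge (lev V + lev w - 2).toNat
  obtain ⟨n, hn⟩ : ∃ n : ℕ, (n : ℤ) = lev V + lev w - 2 := ⟨(lev V + lev w - 2).toNat, by omega⟩
  have e1 : (lev V + lev w - 2).toNat = n := by omega
  have e2 : (lev (up V) + lev w - 2).toNat = n + 1 := by rw [lev_up]; omega
  rw [e1] at hp ⊢
  unfold aB
  rw [e1, e2]
  by_cases h2 : inBox (up^[Cst s0 + 2] A) (up^[Cst s0 + 1] B) (up V) w
  · have h1 : inBox (up^[Cst s0 + 2] A) (up^[Cst s0 + 1] B) V w := ⟨below_of_up h2.1, h2.2⟩
    rw [if_pos h1, if_pos h2]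
    have k1 := lev_desc n V
    have k2 := lev_desc (n + 1) (up V)
    rw [lev_up] at k2
    push_cast at k2
    have h3 : up^[n + 1] (desc n V) = up^[n + 1] (desc (n + 1) (up V)) := by
      rw [iter_desc, Function.iterate_succ_apply', iter_desc]
    have h5 := uB_osc HX hAB (n + 1) (X := desc n V) (Y := desc (n + 1) (up V)) (w := w)
      (by omega) (by omega) h3
    have h6 := uB_osc HX hAB (n + 1) (X := desc (n + 1) (up V)) (Y := desc n V) (w := w)
      (by omega) (by omega) h3.symm
    push_cast at h5 h6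
    omega
  · rw [if_neg h2]
    by_cases h1 : inBox (up^[Cst s0 + 2] A) (up^[Cst s0 + 1] B) V w
    · rw [if_pos h1]
      have h3 : V = up^[Cst s0 + 2] A := by
        rcases below_cases h1.1 with h | h
        · exact h
        · exact absurd ⟨h, h1.2⟩ h2
      have h4 := lev_iter (Cst s0 + 2) A
      rw [← h3] at h4
      push_cast at h4
      have k1 := lev_desc n V
      have h5 := uB_clamp (s0 := s0) (A := A) (B := B) (Kx := Kx) (desc n V) w
      have h6 := slack_le_of_scale (C := (Cst s0 : ℤ)) (A := A) (B := B) (V := desc n V) (w := w)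
        (by omega)
      omega
    · rw [if_neg h1]
      omega

lemma aB_base {V w : T} (hs : lev V + lev w = 2) : aB s0 A B Kx V w = uB s0 A B Kx V w := by
  unfold aB
  have e1 : (lev V + lev w - 2).toNat = 0 := by omega
  rw [e1, desc_zero]
  split_ifs with h1
  · rfl
  · exact (uB_outside h1).symm

lemma Ustd_digit (HX : KGood RC posC Kx) (hAB : lev A + lev B = s0) {V w : T}
    (hk : 2 ≤ lev V + lev w) :
    14 ≤ Ustd s0 A B Kx V w - 2 * Ustd s0 A B Kx (up V) w ∧
    Ustd s0 A B Kx V w - 2 * Ustd s0 A B Kx (up V) w ≤ 19 := by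
  unfold Ustd
  have e1 : lev (up V) + lev w - 2 = lev V + lev w + 1 - 2 := by rw [lev_up]; ring
  rw [e1, pow_scale hk]
  have h1 := aB_step HX hAB hk
  have h2 := floor_digit (A := aB s0 A B Kx V w + 16) (A' := aB s0 A B Kx (up V) w + 16)
    (N := 2 ^ (lev V + lev w - 2).toNat) (by positivity) (by linarith [h1.1]) (by linarith [h1.2])
  omega

lemma Ustd_base {V w : T} (hs : lev V + lev w = 2) :
    Ustd s0 A B Kx V w = uB s0 A B Kx V w := by
  unfold Ustd
  rw [aB_base hs]
  have e1 : (lev V + lev w - 2).toNat = 0 := by omega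
  rw [e1]
  simp

lemma Ustd_outside {V w : T} (H : ¬ inBox (up^[Cst s0 + 2] A) (up^[Cst s0 + 1] B) V w) :
    Ustd s0 A B Kx V w = Ub V w := by
  unfold Ustd aB Ub
  rw [if_neg H]

lemma inBox_big {V w : T} (H : inBox (up (up (up A))) (up B) V w) :
    inBox (up^[Cst s0 + 2] A) (up^[Cst s0 + 1] B) V w := by
  have h1 : below V (up^[3] A) := H.1
  have h2 : below w (up^[1] B) := H.2
  have hC : 1 ≤ Cst s0 := by unfold Cst; omega
  exact ⟨below_iter_mono h1 (by omega), below_iter_mono h2 (by omega)⟩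

lemma Ustd_near (hAB : lev A + lev B = s0) {w : T} (hw : below w (up B))
    (hs : 0 ≤ lev A + lev w) :
    VI s0 A B Kx (up (up A)) w - Ustd s0 A B Kx (up (up A)) w ≤ 16 ∧
    Ustd s0 A B Kx (up (up A)) w - VI s0 A B Kx (up (up A)) w ≤ 16 := by
  have h1 : inBox (up^[Cst s0 + 2] A) (up^[Cst s0 + 1] B) (up (up A)) w :=
    inBox_big ⟨below_up_right (below_refl _), hw⟩
  obtain ⟨j, hj⟩ : ∃ j : ℕ, (j : ℤ) = lev A + lev w := ⟨(lev A + lev w).toNat, by omega⟩
  have e1 : (lev (up (up A)) + lev w - 2).toNat = j := by rw [lev_up, lev_up]; omega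
  have k1 := lev_desc j (up (up A))
  rw [lev_up, lev_up] at k1
  have h2 : inBox (up (up A)) (up B) (desc j (up (up A))) w := ⟨below_desc (below_refl _) _, hw⟩
  unfold Ustd aB
  rw [if_pos h1, e1, uB_island hAB h2 (by omega)]
  unfold VI
  have e2 : (lev A + 2 - lev (up (up A))).toNat = 0 := by rw [lev_up, lev_up]; omega
  have e3 : (lev A + 2 - lev (desc j (up (up A)))).toNat = j := by omega
  rw [e2, e3, Uisl_zero]
  have h3 := Uisl_tele (Kx := Kx) (A2 := up (up A)) (T0 := T0 s0 B) j (lev B + 1 - lev w).toNat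
    (desc j (up (up A))) w
  set N : ℤ := 2 ^ j with hN
  have hNpos : 0 < N := by positivity
  set W := Utop Kx (up (up A)) (T0 s0 B) (lev B + 1 - lev w).toNat w
  set Y := Uisl Kx (up (up A)) (T0 s0 B) j (lev B + 1 - lev w).toNat (desc j (up (up A))) w
  have e4 : Y + 16 = (Y - N * W + 16) + N * W := by ring
  rw [e4, Int.add_mul_ediv_left _ _ (ne_of_gt hNpos)]
  have h5 : 0 ≤ (Y - N * W + 16) / N := Int.ediv_nonneg (by omega) (by omega)
  have h6 : (Y - N * W + 16) / N < 32 := by
    rw [Int.ediv_lt_iff_lt_mul hNpos]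
    linarith [h3.2]
  omega

lemma UU_base (hAB : lev A + lev B = s0) {V w : T} (hs : lev V + lev w = 2) :
    UU s0 A B Kx V w = uB s0 A B Kx V w := by
  unfold UU
  by_cases h1 : inBox (up (up A)) (up B) V w
  · rw [if_pos h1]
    exact (uB_island hAB h1 hs).symm
  · rw [if_neg h1, if_neg, Ustd_base hs]
    rintro ⟨h2, h3, h4⟩
    rw [h2, lev_up, lev_up, lev_up] at hs
    omega

lemma UU_outside {V w : T} (H : ¬ inBox (up^[Cst s0 + 2] A) (up^[Cst s0 + 1] B) V w) :
    UU s0 A B Kx V w = Ub V w := by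
  unfold UU
  rw [if_neg, if_neg, Ustd_outside H]
  · rintro ⟨h1, h2, -⟩
    subst h1
    exact H (inBox_big ⟨below_refl _, h2⟩)
  · intro h1
    exact H (inBox_big ⟨below_up_right h1.1, h1.2⟩)

lemma UU_island {V w : T} (H : inBox (up (up A)) (up B) V w) :
    UU s0 A B Kx V w = VI s0 A B Kx V w := by
  unfold UU
  rw [if_pos H]

lemma UU_digit (HX : KGood RC posC Kx) (hAB : lev A + lev B = s0) {V w : T}
    (hk : 2 ≤ lev V + lev w) :
    0 ≤ UU s0 A B Kx V w - 2 * UU s0 A B Kx (up V) w ∧
    UU s0 A B Kx V w - 2 * UU s0 A B Kx (up V) w ≤ 32 := by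
  have hstd := Ustd_digit HX hAB hk
  have hA2 : lev (up (up A)) = lev A + 2 := by rw [lev_up, lev_up]; ring
  by_cases h1 : inBox (up (up A)) (up B) (up V) w
  · -- parent in the island
    have h2 : inBox (up (up A)) (up B) V w := ⟨below_of_up h1.1, h1.2⟩
    have h3 := lev_le_of_below h1.1
    rw [hA2, lev_up] at h3
    rw [UU_island h1, UU_island h2, VI_step (by omega)]
    have h4 := (Kx (ch V 0) w).hδ0
    have h5 := (Kx (ch V 0) w).hδ1
    omega
  by_cases h2 : up V = up (up (up A)) ∧ below w (up B) ∧ 0 ≤ lev A + lev w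
  · -- parent special
    obtain ⟨h3, h4, h5⟩ := h2
    have h6 : UU s0 A B Kx (up V) w = min (Ustd s0 A B Kx (up V) w + 7)
        (VI s0 A B Kx (up (up A)) w / 2) := by
      unfold UU
      rw [if_neg h1, if_pos ⟨h3, h4, h5⟩]
    rw [h6]
    have h8 := Ustd_near (Kx := Kx) hAB h4 h5
    have h10 := Ustd_digit HX hAB (V := up (up A)) (w := w) (by omega)
    rw [← h3] at h10
    have hlV : lev V = lev (up (up A)) := lev_eq_of_up_eq h3
    by_cases h11 : inBox (up (up A)) (up B) V w
    · -- child in the island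
      have h12 : V = up (up A) := eq_of_below h11.1 (by omega)
      have h13 : VI s0 A B Kx V w = VI s0 A B Kx (up (up A)) w := by rw [h12]
      rw [UU_island h11, h13]
      omega
    · -- child standard
      have h12 : UU s0 A B Kx V w = Ustd s0 A B Kx V w := by
        unfold UU
        rw [if_neg h11, if_neg]
        rintro ⟨h13, -, -⟩
        rw [h13, lev_up (up (up A))] at hlV
        omega
      rw [h12]
      omega
  -- parent standard
  have h3 : UU s0 A B Kx (up V) w = Ustd s0 A B Kx (up V) w := by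
    unfold UU
    rw [if_neg h1, if_neg h2]
  rw [h3]
  by_cases h4 : inBox (up (up A)) (up B) V w
  · exfalso
    rcases below_cases h4.1 with h5 | h5
    · apply h2
      refine ⟨by rw [h5], h4.2, ?_⟩
      rw [h5] at hk
      omega
    · exact h1 ⟨h5, h4.2⟩
  by_cases h5 : V = up (up (up A)) ∧ below w (up B) ∧ 0 ≤ lev A + lev w
  · -- child special
    obtain ⟨h6, h7, h8⟩ := h5
    have h9 : UU s0 A B Kx V w = min (Ustd s0 A B Kx V w + 7)
        (VI s0 A B Kx (up (up A)) w / 2) := by
      unfold UU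
      rw [if_neg h4, if_pos ⟨h6, h7, h8⟩]
    rw [h9]
    have h11 := Ustd_near (Kx := Kx) hAB h7 h8
    have h13 := Ustd_digit HX hAB (V := up (up A)) (w := w) (by omega)
    rw [← h6] at h13
    omega
  · have h6 : UU s0 A B Kx V w = Ustd s0 A B Kx V w := by
      unfold UU
      rw [if_neg h4, if_neg h5]
    rw [h6]
    omega

lemma UU_good (HX : KGood RC posC Kx) (hAB : lev A + lev B = s0) :
    UGood (UU s0 A B Kx) (dig A B Kx) where
  d0 V w h := (UU_digit HX hAB h).1
  d1 V w h := (UU_digit HX hAB h).2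
  p0 V w h := by
    have e1 := lev_up V
    have e2 := lev_up w
    rw [UU_base hAB (by omega), UU_base hAB (by omega)]
    exact (uB_step HX hAB V w h).1
  p1 V w h := by
    have e1 := lev_up V
    have e2 := lev_up w
    rw [UU_base hAB (by omega), UU_base hAB (by omega)]
    exact (uB_step HX hAB V w h).2
  s V V' w h hV := by
    unfold dig
    have h1 : Kx V w = Kx V' w := HX.s2 V V' w (by omega) hV
    rw [hV, h1]
  g0 V w h := by
    unfold dig
    split_ifs
    · exact (Kx V w).hδ0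
    · norm_num
  g1 V w h := by
    unfold dig
    split_ifs
    · exact (Kx V w).hδ1
    · norm_num

end main

/-- **Module II.** -/
theorem truth (T : Type) [HTree T] : TruthThm T := by
  refine ⟨KOf Ub (fun _ _ => 16), KOf_good Ub_good, fun s0 => ⟨Cst s0 + 2, ?_⟩⟩
  intro A B Kx hAB HX
  have HU := UU_good HX hAB
  refine ⟨KOf (UU s0 A B Kx) (dig A B Kx), KOf_good HU, ?_, ?_⟩
  · intro V w hb hs
    have hV1 : below (up V) (up A) := below_up_up hb.1
    have hV2 : below (up (up V)) (up (up A)) := below_up_up hV1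
    have hV1' : below (up V) (up (up A)) := below_up_right hV1
    have hw1 : below (up w) (up B) := below_up_up hb.2
    have hw0 : below w (up B) := below_up_right hb.2
    have hlV := lev_le_of_below hb.1
    have h1 : dOf (UU s0 A B Kx) V w = (Kx V w).d := by
      unfold dOf
      rw [UU_island ⟨hV1', hw1⟩, UU_island ⟨hV2, hw1⟩,
        VI_step (V := up V) (by rw [lev_up]; omega)]
      have h2 : Kx V (up w) = Kx (ch (up V) 0) (up w) :=
        HX.s2 V (ch (up V) 0) (up w) (by rw [lev_up]; omega) (by rw [up_ch])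
      have h3 : (Kx V w).d = (Kx V (up w)).δ := HX.v1 V w hs
      rw [h3, h2]
      ring
    have h2 : eOf (UU s0 A B Kx) V w = (Kx V w).e := by
      unfold eOf
      rw [UU_island ⟨hV1', hw1⟩, UU_island ⟨hV2, hw0⟩]
      exact VI_E HX hb.1 hb.2 hs
    have h3 : dlOf (UU s0 A B Kx) (dig A B Kx) V w = (Kx V w).δ := by
      unfold dlOf
      split_ifs with h4
      · rw [UU_island ⟨hV1', hw0⟩, UU_island ⟨hV2, hw0⟩,
          VI_step (V := up V) (by rw [lev_up]; omega)]
        have h5 : Kx V w = Kx (ch (up V) 0) w :=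
          HX.s2 V (ch (up V) 0) w hs (by rw [up_ch])
        rw [h5]
        ring
      · unfold dig
        rw [if_pos ⟨hV1', hw0⟩]
    unfold KOf
    rw [h1, h2, h3, mkCont_self]
  · intro V w hs hb
    have hout : ∀ V' w' : T, (below V' (up^[Cst s0 + 2] A) → below V (up^[Cst s0 + 2] A)) →
        (below w' (up^[Cst s0 + 1] B) → below w (up^[Cst s0 + 1] B)) →
        UU s0 A B Kx V' w' = Ub V' w' := by
      intro V' w' h1 h2
      apply UU_outside
      intro h3
      exact hb ⟨h1 h3.1, below_iter_mono (h2 h3.2) (by omega)⟩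
    have h1 : dOf (UU s0 A B Kx) V w = dOf Ub V w := by
      unfold dOf
      rw [hout _ _ below_of_up below_of_up,
        hout _ _ (fun h => below_of_up (below_of_up h)) below_of_up]
    have h2 : eOf (UU s0 A B Kx) V w = eOf Ub V w := by
      unfold eOf
      rw [hout _ _ below_of_up below_of_up,
        hout _ _ (fun h => below_of_up (below_of_up h)) id]
    have h3 : dlOf (UU s0 A B Kx) (dig A B Kx) V w = dlOf Ub (fun _ _ => 16) V w := by
      unfold dlOf
      split_ifs with h4
      · rw [hout _ _ below_of_up id, hout _ _ (fun h => below_of_up (below_of_up h)) id]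
      · unfold dig
        rw [if_neg]
        intro h5
        apply hb
        have h6 := inBox_big (s0 := s0) ⟨below_up_right h5.1, h5.2⟩
        exact ⟨below_of_up h6.1, below_iter_mono h6.2 (by omega)⟩
    unfold KOf
    rw [h1, h2, h3]

end Pool.Agent.H46.LL
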